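import Mathlib

/-!
# Decoupling of a small-step model can depend on the time variable

The model with steps (1,1), (1,0), (0,1), (1,-1), (-1,1), (-1,-1), weights 4, 21, 21, 5, 5, 4 and
starting point (1,1) decouples at t = 4/255 and does not decouple at t = 1/196; both values lie
in (0, 1/P(1,1)) = (0, 1/60).

* At t = 4/255 one has x y = - 4 (5 x^2 + 4) / (4 x + 1) + 4 y (16 - 5 y) / (4 y + 1) on the curve.
* At t = 1/196 the curve is invariant under (x, y) -> (phi x, y) and (x, y) -> (x, phi y) with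
  phi x = (28 - 3 x) / (35 x + 3) (the group of the walk has order 4 on the curve), and the
  alternating sum of x y over the four points (x, y), (phi x, y), (phi x, phi y), (x, phi y) is
  (x - phi x) (y - phi y), which is not zero.
-/

namespace Pool.Agent.Results.MP_29028a_co.TimeDependentDecoupling

/-- A weighted small-step model: a non-singular set `S` of steps in `{-1,0,1}^2 \ {(0,0)}` (every
line `a X + b Y = 0` through the origin has an element of `S` strictly on each side), a weight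
`w s > 0` for each step `s` of `S`, and a starting point `(p, q)` with `p > 0` and `q ≥ 0`. -/
structure Model where
  /-- the step set -/
  S : Finset (ℤ × ℤ)
  small : ∀ s ∈ S, (s.1 = -1 ∨ s.1 = 0 ∨ s.1 = 1) ∧ (s.2 = -1 ∨ s.2 = 0 ∨ s.2 = 1)
  zero_notMem : ((0 : ℤ), (0 : ℤ)) ∉ S
  nonsingular : ∀ a b : ℝ, (a ≠ 0 ∨ b ≠ 0) →
    (∃ s ∈ S, 0 < a * (s.1 : ℝ) + b * (s.2 : ℝ)) ∧ (∃ s ∈ S, a * (s.1 : ℝ) + b * (s.2 : ℝ) < 0)
  /-- the weights -/
  w : ℤ × ℤ → ℝ
  w_pos : ∀ s ∈ S, 0 < w s
  /-- the abscissa of the starting point -/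
  p : ℤ
  /-- the ordinate of the starting point -/
  q : ℤ
  p_pos : 0 < p
  q_nonneg : 0 ≤ q

/-- `P(1,1)`, the sum of all weights. -/
noncomputable def Model.P11 (M : Model) : ℝ := ∑ s ∈ M.S, M.w s

/-- The kernel with denominators cleared,
`x y (1 - t P(x,y)) = x y - t * ∑_{(i,j) ∈ S} w_{(i,j)} x^(i+1) y^(j+1)`
(all exponents are nonnegative since `i, j ≥ -1`). -/
noncomputable def Model.kernel (M : Model) (t : ℝ) (x y : ℂ) : ℂ :=
  x * y - (t : ℂ) * ∑ s ∈ M.S, (M.w s : ℂ) * x ^ (s.1 + 1) * y ^ (s.2 + 1)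

/-- The model decouples at `t`: there are rational functions `R₁ ∈ ℂ(x)`, `R₂ ∈ ℂ(y)` that are
defined at all but finitely many points of the curve `E_t` (the zero set of the kernel in `ℂ²`)
and satisfy `x^p y^q = R₁(x) + R₂(y)` at every point `(x, y)` of `E_t` at which both are
defined. -/
def Model.DecouplesAt (M : Model) (t : ℝ) : Prop :=
  ∃ R₁ R₂ : RatFunc ℂ,
    {z : ℂ × ℂ | M.kernel t z.1 z.2 = 0 ∧
      (R₁.denom.eval z.1 = 0 ∨ R₂.denom.eval z.2 = 0)}.Finite ∧
    ∀ x y : ℂ, M.kernel t x y = 0 → R₁.denom.eval x ≠ 0 → R₂.denom.eval y ≠ 0 →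
      x ^ M.p * y ^ M.q = R₁.eval (RingHom.id ℂ) x + R₂.eval (RingHom.id ℂ) y

/-- The steps of the example. -/
def exS : Finset (ℤ × ℤ) := {(1, 1), (1, 0), (0, 1), (1, -1), (-1, 1), (-1, -1)}

/-- The weights of the example. -/
def exW (s : ℤ × ℤ) : ℝ :=
  if s = (1, 1) ∨ s = (-1, -1) then 4 else if s = (1, 0) ∨ s = (0, 1) then 21 else 5

/-- The example. -/
noncomputable def ex : Model where
  S := exS
  small := by
    intro s hs
    simp only [exS, Finset.mem_insert, Finset.mem_singleton] at hs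
    rcases hs with h | h | h | h | h | h <;> subst h <;> simp
  zero_notMem := by simp [exS]
  nonsingular := by
    intro a b hab
    rcases lt_trichotomy (a + b) 0 with h | h | h
    · refine ⟨⟨(-1, -1), by simp [exS], ?_⟩, ⟨(1, 1), by simp [exS], ?_⟩⟩
      · push_cast; linarith
      · push_cast; linarith
    · have hb : b = -a := by linarith
      have ha : a ≠ 0 := by
        rintro rfl
        rcases hab with h1 | h1
        · exact h1 rfl
        · apply h1; linarith
      rcases lt_or_gt_of_ne ha with h1 | h1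
      · refine ⟨⟨(-1, 1), by simp [exS], ?_⟩, ⟨(1, -1), by simp [exS], ?_⟩⟩
        · push_cast; linarith
        · push_cast; linarith
      · refine ⟨⟨(1, -1), by simp [exS], ?_⟩, ⟨(-1, 1), by simp [exS], ?_⟩⟩
        · push_cast; linarith
        · push_cast; linarith
    · refine ⟨⟨(1, 1), by simp [exS], ?_⟩, ⟨(-1, -1), by simp [exS], ?_⟩⟩
      · push_cast; linarith
      · push_cast; linarith
  w := exW
  w_pos := by
    intro s _
    unfold exW
    split_ifs <;> norm_num
  p := 1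
  q := 1
  p_pos := by norm_num
  q_nonneg := by norm_num

lemma ex_P11 : ex.P11 = 60 := by
  simp only [Model.P11, ex, exS]
  rw [Finset.sum_insert (by decide), Finset.sum_insert (by decide), Finset.sum_insert (by decide),
    Finset.sum_insert (by decide), Finset.sum_insert (by decide), Finset.sum_singleton]
  simp [exW]
  norm_num

lemma ex_kernel (t : ℝ) (x y : ℂ) : ex.kernel t x y =
    x * y - (t : ℂ) * (4 * x ^ 2 * y ^ 2 + 21 * x ^ 2 * y + 21 * x * y ^ 2 + 5 * x ^ 2
      + 5 * y ^ 2 + 4) := by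
  simp only [Model.kernel, ex, exS]
  rw [Finset.sum_insert (by decide), Finset.sum_insert (by decide), Finset.sum_insert (by decide),
    Finset.sum_insert (by decide), Finset.sum_insert (by decide), Finset.sum_singleton]
  have e2 : ∀ z : ℂ, z ^ ((1 : ℤ) + 1) = z ^ 2 := by
    intro z
    have h2 : ((1 : ℤ) + 1) = ((2 : ℕ) : ℤ) := by norm_num
    rw [h2, zpow_natCast]
  have e1 : ∀ z : ℂ, z ^ ((0 : ℤ) + 1) = z := by intro z; norm_num
  have e0 : ∀ z : ℂ, z ^ ((-1 : ℤ) + 1) = 1 := by intro z; norm_num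
  have w1 : exW (1, 1) = 4 := by simp [exW]
  have w2 : exW (1, 0) = 21 := by simp [exW]
  have w3 : exW (0, 1) = 21 := by simp [exW]
  have w4 : exW (1, -1) = 5 := by simp [exW]
  have w5 : exW (-1, 1) = 5 := by simp [exW]
  have w6 : exW (-1, -1) = 4 := by simp [exW]
  simp only [e0, e1, e2, w1, w2, w3, w4, w5, w6]
  push_cast
  ring

/-- Evaluation of a quotient of two polynomials without common root at `x`. -/
lemma eval_quot (n d : Polynomial ℂ) (hd : d ≠ 0) (R : RatFunc ℂ)
    (hR : R = algebraMap _ _ n / algebraMap _ _ d) (x : ℂ) (hx : R.denom.eval x ≠ 0)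
    (hc : d.eval x = 0 → n.eval x ≠ 0) :
    d.eval x ≠ 0 ∧ R.eval (RingHom.id ℂ) x = n.eval x / d.eval x := by
  have h := (RatFunc.num_mul_eq_mul_denom_iff (x := R) (p := n) hd).2 hR
  have h' : R.num.eval x * d.eval x = n.eval x * R.denom.eval x := by
    have := congrArg (Polynomial.eval x) h
    simpa [Polynomial.eval_mul] using this
  have hdx : d.eval x ≠ 0 := by
    intro h0
    rw [h0, mul_zero] at h'
    rcases mul_eq_zero.1 h'.symm with h1 | h1
    · exact hc h0 h1
    · exact hx h1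
  refine ⟨hdx, ?_⟩
  rw [RatFunc.eval, Polynomial.eval₂_id, Polynomial.eval₂_id, div_eq_div_iff hx hdx]
  exact h'

open Polynomial in
lemma decouples : ex.DecouplesAt (4 / 255) := by
  have hd : ((C 4 * X + C 1 : ℂ[X])) ≠ 0 := by
    intro h
    have := congrArg (Polynomial.eval 0) h
    simp at this
  refine ⟨algebraMap ℂ[X] _ (C (-20) * X ^ 2 + C (-16)) / algebraMap ℂ[X] _ (C 4 * X + C 1),
    algebraMap ℂ[X] _ (C (-20) * X ^ 2 + C 64 * X) / algebraMap ℂ[X] _ (C 4 * X + C 1), ?_, ?_⟩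
  · -- the only pole on the curve is the point `(-1/4, -1/4)`
    have hden : ∀ (n : ℂ[X]) (x : ℂ),
        (algebraMap ℂ[X] (RatFunc ℂ) n / algebraMap ℂ[X] (RatFunc ℂ) (C 4 * X + C 1)).denom.eval x
          = 0 → x = -1 / 4 := by
      intro n x hx
      obtain ⟨c, hc⟩ := RatFunc.denom_div_dvd n (C 4 * X + C 1 : ℂ[X])
      have := congrArg (Polynomial.eval x) hc
      rw [eval_mul, hx, zero_mul] at this
      simp only [eval_add, eval_mul, eval_C, eval_X] at this
      linear_combination this / 4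
    refine (Set.finite_singleton ((-1 / 4 : ℂ), (-1 / 4 : ℂ))).subset ?_
    rintro ⟨x, y⟩ ⟨hk, hxy⟩
    rw [ex_kernel] at hk
    push_cast at hk
    simp only [Set.mem_singleton_iff, Prod.mk.injEq]
    rcases hxy with h | h
    · have hx := hden _ _ h
      simp only at hx hk
      refine ⟨hx, ?_⟩
      rw [hx] at hk
      linear_combination (-85 / 23) * hk
    · have hy := hden _ _ h
      simp only at hy hk
      refine ⟨?_, hy⟩
      rw [hy] at hk
      linear_combination (-85 / 23) * hk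
  intro x y hk hx hy
  obtain ⟨hx1, ex1⟩ := eval_quot _ _ hd _ rfl x hx (by
    intro h0 h1
    simp only [eval_add, eval_mul, eval_C, eval_X, eval_pow] at h0 h1
    have hx : x = -1 / 4 := by linear_combination h0 / 4
    rw [hx] at h1
    norm_num at h1)
  obtain ⟨hy1, ey1⟩ := eval_quot _ _ hd _ rfl y hy (by
    intro h0 h1
    simp only [eval_add, eval_mul, eval_C, eval_X, eval_pow] at h0 h1
    have hy : y = -1 / 4 := by linear_combination h0 / 4
    rw [hy] at h1
    norm_num at h1)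
  rw [ex1, ey1]
  rw [ex_kernel] at hk
  simp only [eval_add, eval_mul, eval_C, eval_X, eval_pow] at hx1 hy1 ⊢
  have hp : x ^ ex.p * y ^ ex.q = x * y := by
    show x ^ (1 : ℤ) * y ^ (1 : ℤ) = x * y
    rw [zpow_one, zpow_one]
  rw [hp, div_add_div _ _ hx1 hy1, eq_div_iff (mul_ne_zero hx1 hy1)]
  push_cast at hk
  linear_combination (-255) * hk

/-- The zero set of a nonzero polynomial of degree at most two is finite. -/
lemma finite_quad (a b c : ℂ) (h : a ≠ 0 ∨ b ≠ 0 ∨ c ≠ 0) :
    {x : ℂ | a * x ^ 2 + b * x + c = 0}.Finite := by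
  have hp : (Polynomial.C a * Polynomial.X ^ 2 + Polynomial.C b * Polynomial.X
      + Polynomial.C c : Polynomial ℂ) ≠ 0 := by
    intro h0
    have h2 := congrArg (fun p => Polynomial.coeff p 2) h0
    have h1 := congrArg (fun p => Polynomial.coeff p 1) h0
    have h3 := congrArg (fun p => Polynomial.coeff p 0) h0
    simp [Polynomial.coeff_X, Polynomial.coeff_C] at h1 h2 h3
    rcases h with h | h | h
    · exact h h2
    · exact h h1
    · exact h h3
  refine (Polynomial.finite_setOfPred_isRoot hp).subset ?_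
  intro x hx
  simp only [Set.mem_ofPred_eq, Polynomial.IsRoot.def] at hx ⊢
  simpa using hx

/-- The Moebius involution that, at `t = 1/196`, exchanges the two roots of the kernel. -/
noncomputable def phi (x : ℂ) : ℂ := (28 - 3 * x) / (35 * x + 3)

/-- For a finite set `F`, only finitely many `x` fail to be generic. -/
lemma finite_bad (F : Set ℂ) (hF : F.Finite) :
    {x : ℂ | x ∈ F ∨ 35 * x + 3 = 0 ∨ phi x ∈ F ∨ phi x = x}.Finite := by
  have h1 : {x : ℂ | 35 * x + 3 = 0}.Finite := by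
    refine (finite_quad 0 35 3 (by norm_num)).subset ?_
    intro x hx
    simp only [Set.mem_ofPred_eq] at hx ⊢
    linear_combination hx
  have h2 : (⋃ r ∈ F, {x : ℂ | 0 * x ^ 2 + (35 * r + 3) * x + (3 * r - 28) = 0}).Finite := by
    refine hF.biUnion ?_
    intro r _
    refine finite_quad _ _ _ ?_
    right
    by_contra hcon
    push Not at hcon
    obtain ⟨e1, e2⟩ := hcon
    have : (989 : ℂ) = 0 := by linear_combination 3 * e1 - 35 * e2
    norm_num at this
  have h3 : {x : ℂ | 35 * x ^ 2 + 6 * x + (-28) = 0}.Finite := finite_quad 35 6 (-28) (by norm_num)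
  refine (((hF.union h1).union h2).union h3).subset ?_
  intro x hx
  by_cases hp : 35 * x + 3 = 0
  · left; left; right; exact hp
  rcases hx with hx | hx | hx | hx
  · left; left; left; exact hx
  · exact absurd hx hp
  · left; right
    simp only [Set.mem_iUnion]
    refine ⟨phi x, hx, ?_⟩
    simp only [Set.mem_ofPred_eq]
    have : phi x * (35 * x + 3) = 28 - 3 * x := div_mul_cancel₀ _ hp
    linear_combination this
  · right
    have : phi x * (35 * x + 3) = 28 - 3 * x := div_mul_cancel₀ _ hp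
    rw [hx] at this
    simp only [Set.mem_ofPred_eq]
    linear_combination this

/-- At `t = 1/196` the curve is invariant under `(x, y) ↦ (phi x, y)`. -/
lemma kernel_phi_left (x y : ℂ) (hx : 35 * x + 3 ≠ 0) (h : ex.kernel (1 / 196) x y = 0) :
    ex.kernel (1 / 196) (phi x) y = 0 := by
  rw [ex_kernel] at h ⊢
  have hp : phi x * (35 * x + 3) = 28 - 3 * x := div_mul_cancel₀ _ hx
  set u := phi x with hu
  push_cast at h ⊢
  have h2 : (35 * x + 3) ^ 2 ≠ 0 := pow_ne_zero 2 hx
  have key : (35 * x + 3) ^ 2 * (u * y - 1 / 196 * (4 * u ^ 2 * y ^ 2 + 21 * u ^ 2 * y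
      + 21 * u * y ^ 2 + 5 * u ^ 2 + 5 * y ^ 2 + 4)) = 0 := by
    have e : (35 * x + 3) ^ 2 * (u * y - 1 / 196 * (4 * u ^ 2 * y ^ 2 + 21 * u ^ 2 * y
      + 21 * u * y ^ 2 + 5 * u ^ 2 + 5 * y ^ 2 + 4)) =
      (35 * x + 3) * (u * (35 * x + 3)) * y - 1 / 196 * (4 * (u * (35 * x + 3)) ^ 2 * y ^ 2
        + 21 * (u * (35 * x + 3)) ^ 2 * y
      + 21 * (35 * x + 3) * (u * (35 * x + 3)) * y ^ 2 + 5 * (u * (35 * x + 3)) ^ 2
      + (35 * x + 3) ^ 2 * (5 * y ^ 2 + 4)) := by ring
    rw [e, hp]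
    linear_combination 989 * h
  exact (mul_eq_zero.1 key).resolve_left h2

/-- The kernel is symmetric. -/
lemma kernel_symm (t : ℝ) (x y : ℂ) : ex.kernel t x y = ex.kernel t y x := by
  rw [ex_kernel, ex_kernel]; ring

lemma kernel_phi_right (x y : ℂ) (hy : 35 * y + 3 ≠ 0) (h : ex.kernel (1 / 196) x y = 0) :
    ex.kernel (1 / 196) x (phi y) = 0 := by
  rw [kernel_symm] at h ⊢
  exact kernel_phi_left y x hy h

lemma not_decouples : ¬ ex.DecouplesAt (1 / 196) := by
  rintro ⟨R₁, R₂, -, hR⟩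
  -- the poles
  have hF1 : {x : ℂ | R₁.denom.eval x = 0}.Finite :=
    Polynomial.finite_setOfPred_isRoot (RatFunc.denom_ne_zero R₁)
  have hF2 : {x : ℂ | R₂.denom.eval x = 0}.Finite :=
    Polynomial.finite_setOfPred_isRoot (RatFunc.denom_ne_zero R₂)
  have hB1 := finite_bad _ hF1
  have hB2 := finite_bad _ hF2
  -- points over bad `y`
  have hB3 : (⋃ y ∈ {x : ℂ | x ∈ {x : ℂ | R₂.denom.eval x = 0} ∨ 35 * x + 3 = 0 ∨
      phi x ∈ {x : ℂ | R₂.denom.eval x = 0} ∨ phi x = x},
      {x : ℂ | (4 * y ^ 2 + 21 * y + 5) * x ^ 2 + (21 * y ^ 2 - 196 * y) * x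
        + (5 * y ^ 2 + 4) = 0}).Finite := by
    refine hB2.biUnion ?_
    intro y _
    refine finite_quad _ _ _ ?_
    by_contra hcon
    push Not at hcon
    obtain ⟨e1, e2, e3⟩ := hcon
    have hy0 : y = -3 / 35 := by linear_combination (5 * e1 - 4 * e3) / 105
    rw [hy0] at e3
    norm_num at e3
  have hB4 : {x : ℂ | 4 * x ^ 2 + 21 * x + 5 = 0}.Finite := finite_quad 4 21 5 (by norm_num)
  obtain ⟨x, hx⟩ := ((((hB1.union hB3).union hB4)).infinite_compl).nonempty
  simp only [Set.mem_compl_iff, Set.mem_union, Set.mem_iUnion, Set.mem_ofPred_eq, not_or,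
    not_exists] at hx
  obtain ⟨⟨⟨hx1, hx2, hx3, hx4⟩, hx5⟩, hx6⟩ := hx
  -- a point of the curve over `x`
  obtain ⟨y, hy⟩ : ∃ y : ℂ, (4 * x ^ 2 + 21 * x + 5) * (y * y) + (21 * x ^ 2 - 196 * x) * y
      + (5 * x ^ 2 + 4) = 0 := by
    refine exists_quadratic_eq_zero hx6 ?_
    obtain ⟨s, hs⟩ := IsAlgClosed.exists_pow_nat_eq (k := ℂ)
      (discrim (4 * x ^ 2 + 21 * x + 5) (21 * x ^ 2 - 196 * x) (5 * x ^ 2 + 4))
      (n := 2) (by norm_num)
    exact ⟨s, by rw [← hs]; ring⟩
  have hK : ex.kernel (1 / 196) x y = 0 := by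
    rw [ex_kernel]
    push_cast
    linear_combination (-1 / 196) * hy
  have hyb : ¬ (Polynomial.eval y R₂.denom = 0 ∨ 35 * y + 3 = 0 ∨
      Polynomial.eval (phi y) R₂.denom = 0 ∨ phi y = y) := by
    intro hbad
    exact hx5 y hbad (by linear_combination hy)
  simp only [not_or] at hyb
  obtain ⟨hy1, hy2, hy3, hy4⟩ := hyb
  have hK1 : ex.kernel (1 / 196) (phi x) y = 0 := kernel_phi_left x y hx2 hK
  have hK2 : ex.kernel (1 / 196) x (phi y) = 0 := kernel_phi_right x y hy2 hK
  have hK3 : ex.kernel (1 / 196) (phi x) (phi y) = 0 := kernel_phi_left x (phi y) hx2 hK2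
  have hp : ∀ u v : ℂ, u ^ ex.p * v ^ ex.q = u * v := by
    intro u v
    show u ^ (1 : ℤ) * v ^ (1 : ℤ) = u * v
    rw [zpow_one, zpow_one]
  have e0 := hR x y hK hx1 hy1
  have e1 := hR (phi x) y hK1 hx3 hy1
  have e2 := hR x (phi y) hK2 hx1 hy3
  have e3 := hR (phi x) (phi y) hK3 hx3 hy3
  rw [hp] at e0 e1 e2 e3
  have hz : (phi x - x) * (phi y - y) = 0 := by
    linear_combination e0 - e1 - e2 + e3
  rcases mul_eq_zero.1 hz with h | h
  · exact hx4 (sub_eq_zero.1 h)
  · exact hy4 (sub_eq_zero.1 h)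

/-- Decoupling can depend on the time variable: there are a model and two values `t₁, t₂` in
`(0, 1 / P(1,1))` such that the model decouples at `t₁` but not at `t₂`. -/
theorem result : ∃ M : Model, ∃ t₁ t₂ : ℝ, t₁ ∈ Set.Ioo 0 (1 / M.P11) ∧
    t₂ ∈ Set.Ioo 0 (1 / M.P11) ∧ M.DecouplesAt t₁ ∧ ¬ M.DecouplesAt t₂ := by
  refine ⟨ex, 4 / 255, 1 / 196, ?_, ?_, decouples, not_decouples⟩
  · rw [ex_P11]; constructor <;> norm_num
  · rw [ex_P11]; constructor <;> norm_num

end Pool.Agent.Results.MP_29028a_co.TimeDependentDecoupling
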